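import Mathlib
import Pool.Agent.Work.MP_70e905_nt.RegimeBMain

open Finset Nat
open Pool.Agent.Work.MP_70e905_nt

namespace Pool.Agent.Results.MP_70e905_nt.ApproxMultiples

open Classical in
theorem card_subtype_eq (M : ℕ) (Q : ℕ → Prop) : Nat.card {m : ℕ // 1 ≤ m ∧ m ≤ M ∧ Q m} =
    ((Finset.Icc 1 M).filter (fun m => Q m)).card := by
  rw [Nat.subtype_card ((Finset.Icc 1 M).filter (fun m => Q m))]
  intro m
  rw [Finset.mem_filter, Finset.mem_Icc, and_assoc]

open Classical in
theorem card_filter_mono {M : ℕ} {P Q : ℕ → Prop} (h : ∀ m, 1 ≤ m → m ≤ M → P m → Q m) :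
    (((Finset.Icc 1 M).filter (fun m => P m)).card : ℝ) ≤
      (((Finset.Icc 1 M).filter (fun m => Q m)).card : ℝ) := by
  norm_cast
  apply Finset.card_le_card
  intro m hm
  rw [Finset.mem_filter, Finset.mem_Icc] at hm ⊢
  exact ⟨hm.1, h m hm.1.1 hm.1.2 hm.2⟩

theorem log_bound {n M : ℕ} (hn : 2 ≤ n) (hM : 1 ≤ M)
    (h : (M : ℝ) < 100000 * (1 + Real.log n)) :
    Real.log ((M * n : ℕ) : ℝ) ≤ 12 * (1 + Real.log n) := by
  have hnr : (2 : ℝ) ≤ n := by exact_mod_cast hn
  have hMr : (1 : ℝ) ≤ M := by exact_mod_cast hM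
  have hlog : 0 < Real.log n := Real.log_pos (by linarith)
  push_cast
  rw [Real.log_mul (by linarith) (by linarith)]
  have h1 : Real.log M ≤ Real.log (100000 * (1 + Real.log n)) := Real.log_le_log (by linarith) h.le
  rw [Real.log_mul (by norm_num) (by linarith)] at h1
  have h2 : Real.log (1 + Real.log n) ≤ Real.log n := by
    have := Real.log_le_sub_one_of_pos (x := 1 + Real.log n) (by linarith)
    linarith
  have h3 : Real.log 100000 ≤ 12 := by
    rw [Real.log_le_iff_le_exp (by norm_num)]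
    have h4 : Real.exp 12 = (Real.exp 1) ^ 12 := by rw [← Real.exp_nat_mul]; norm_num
    have h5 : (2.7182818283 : ℝ) < Real.exp 1 := Real.exp_one_gt_d9
    have h6 : (2.7182818283 : ℝ) ^ 12 ≤ (Real.exp 1) ^ 12 := by gcongr
    have h7 : (100000 : ℝ) ≤ (2.7182818283 : ℝ) ^ 12 := by norm_num
    linarith
  linarith

/-- There are absolute constants `c, C > 0` such that for all `n ≥ 1` and `M ≥ C` at least `c M`
of the integers `m` in `[1, M]` have primes `p, q` with `p ≤ (M + 1) n` and
`|m n - (p - q)| ≤ C (1 + log n) / M`, and moreover with `p - q = m n` exactly as soon as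
`M ≥ C (1 + (φ(n) / n) log n)`. -/
theorem result : ∃ c C : ℝ, 0 < c ∧ 0 < C ∧ ∀ n M : ℕ, 1 ≤ n → C ≤ (M : ℝ) →
    c * (M : ℝ) ≤ (Nat.card {m : ℕ // 1 ≤ m ∧ m ≤ M ∧ ∃ p q : ℕ, p.Prime ∧ q.Prime ∧
      p ≤ (M + 1) * n ∧
      |(m : ℝ) * (n : ℝ) - ((p : ℝ) - (q : ℝ))| ≤ C * (1 + Real.log (n : ℝ)) / (M : ℝ) ∧
      (C * (1 + (Nat.totient n : ℝ) / (n : ℝ) * Real.log (n : ℝ)) ≤ (M : ℝ) →
        p = q + m * n)} : ℝ) := by
  classical
  obtain ⟨K, cB, hK, hcB, hreg⟩ := regimeB
  refine ⟨min cB (1 / 10 ^ 9), 3000000 + 200000 * K, by positivity, by positivity, ?_⟩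
  intro n M hn hM
  set C : ℝ := 3000000 + 200000 * K with hC
  have hC0 : 0 < C := by positivity
  have hMr : (3000000 : ℝ) ≤ M := by linarith
  have hMN : 100000 ≤ M := by
    have : (100000 : ℝ) ≤ M := by linarith
    exact_mod_cast this
  have hnr : (1 : ℝ) ≤ n := by exact_mod_cast hn
  have hlogn : 0 ≤ Real.log n := Real.log_nonneg hnr
  have htn : (0 : ℝ) < Nat.totient n := by exact_mod_cast Nat.totient_pos.mpr (by omega)
  have htn1 : (Nat.totient n : ℝ) ≤ n := by exact_mod_cast Nat.totient_le n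
  have hfrac : 0 ≤ (Nat.totient n : ℝ) / n * Real.log n := by positivity
  have hfrac1 : (Nat.totient n : ℝ) / n * Real.log n ≤ Real.log n := by
    have : (Nat.totient n : ℝ) / n ≤ 1 := by rw [div_le_one (by linarith)]; exact htn1
    nlinarith
  rw [card_subtype_eq]
  by_cases hA : (100000 : ℝ) * (1 + (Nat.totient n : ℝ) / n * Real.log n) ≤ M
  · have h1 := multiples_main n (by omega) M hA
    have h2 : min cB (1 / 10 ^ 9) * (M : ℝ) ≤ (M : ℝ) / 10 ^ 9 := by
      calc min cB (1 / 10 ^ 9) * (M : ℝ) ≤ (1 / 10 ^ 9) * M :=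
            mul_le_mul_of_nonneg_right (min_le_right _ _) (by linarith)
        _ = _ := by ring
    refine h2.trans (h1.trans ?_)
    rw [card_subtype_eq]
    apply card_filter_mono
    intro m hm1 hm2 hgood
    obtain ⟨p, q, hp, hq, hpq, hpx⟩ := hgood
    refine ⟨p, q, hp, hq, ?_, ?_, fun _ => hpq⟩
    · calc p ≤ M * n := hpx
        _ ≤ (M + 1) * n := Nat.mul_le_mul_right n (by omega)
    · have h3 : (m : ℝ) * n - ((p : ℝ) - q) = 0 := by
        rw [hpq]; push_cast; ring
      rw [h3, abs_zero]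
      positivity
  · push Not at hA
    -- here `log n > 1`
    have hlog1 : 1 < (Nat.totient n : ℝ) / n * Real.log n := by linarith
    have hlogn1 : 1 < Real.log n := by linarith
    have hn2 : 2 ≤ n := by
      by_contra hcon
      have : n = 1 := by omega
      rw [this] at hlogn1
      norm_num at hlogn1
    have hMup : (M : ℝ) < 100000 * (1 + Real.log n) := by linarith
    have hM0 : (0 : ℝ) < M := by linarith
    set Y : ℝ := C * (1 + Real.log n) / M with hY
    have hY0 : 0 ≤ Y := by positivity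
    set H := ⌊Y⌋₊ with hH
    have hHY : (H : ℝ) ≤ Y := Nat.floor_le hY0
    have hYH : Y < (H : ℝ) + 1 := Nat.lt_floor_add_one Y
    have hYM : Y * M = C * (1 + Real.log n) := by rw [hY]; field_simp
    have hYlog : Y ≤ 1 + Real.log n := by
      rw [hY, div_le_iff₀ hM0]
      nlinarith
    have hH1 : 1 ≤ H := by
      rw [hH, Nat.one_le_floor_iff, hY, le_div_iff₀ hM0]
      nlinarith
    have hlt : Real.log n < n - 1 := Real.log_lt_sub_one_of_pos (by linarith) (by
      intro h
      have : n = 1 := by exact_mod_cast h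
      omega)
    have hHn : H < n := by
      have : (H : ℝ) < n := by linarith
      exact_mod_cast this
    have hxl : Real.log ((M * n : ℕ) : ℝ) = Real.log M + Real.log n := by
      push_cast
      rw [Real.log_mul (by linarith) (by linarith)]
    have hlogM2 : 2 ≤ Real.log M := by
      rw [Real.le_log_iff_exp_le hM0]
      have h4 : Real.exp 2 = (Real.exp 1) ^ 2 := by rw [← Real.exp_nat_mul]; norm_num
      have h5 : Real.exp 1 < 2.7182818286 := Real.exp_one_lt_d9
      have h6 : (Real.exp 1) ^ 2 ≤ (2.7182818286 : ℝ) ^ 2 := by gcongr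
      have h7 : (2.7182818286 : ℝ) ^ 2 ≤ 100000 := by norm_num
      linarith
    have hlb := log_bound hn2 (by omega : 1 ≤ M) hMup
    have key := hreg n M H hMN hH1 hHn (by rw [hxl]; linarith) (by nlinarith) (by
      -- `K n / φ(n) ≤ H + 1`
      have e1 : K * ((n : ℝ) / (Nat.totient n : ℝ)) * M ≤ Y * M := by
        rw [hYM]
        have e2 : (M : ℝ) ≤ 200000 * ((Nat.totient n : ℝ) / n * Real.log n) := by linarith
        calc K * ((n : ℝ) / (Nat.totient n : ℝ)) * M ≤
              K * ((n : ℝ) / (Nat.totient n : ℝ)) *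
                (200000 * ((Nat.totient n : ℝ) / n * Real.log n)) :=
              mul_le_mul_of_nonneg_left e2 (by positivity)
          _ = 200000 * K * Real.log n := by field_simp
          _ ≤ C * (1 + Real.log n) := by
              rw [hC]
              nlinarith
      have e3 := le_of_mul_le_mul_right e1 hM0
      linarith)
    have h2 : min cB (1 / 10 ^ 9) * (M : ℝ) ≤ cB * M :=
      mul_le_mul_of_nonneg_right (min_le_left _ _) hM0.le
    refine h2.trans (key.trans ?_)
    apply card_filter_mono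
    intro m hm1 hm2 hgood
    obtain ⟨p, q, hp, hq, hpx, h3, h4⟩ := hgood
    refine ⟨p, q, hp, hq, ?_, ?_, ?_⟩
    · calc p ≤ M * n + H := hpx
        _ ≤ M * n + n := by omega
        _ = (M + 1) * n := by ring
    · refine le_trans ?_ hHY
      have h3r : (q : ℝ) + m * n ≤ p + H := by exact_mod_cast h3
      have h4r : (p : ℝ) ≤ q + m * n + H := by exact_mod_cast h4
      rw [abs_le]
      constructor <;> linarith
    · intro hcon
      exfalso
      have : (100000 : ℝ) * (1 + (Nat.totient n : ℝ) / n * Real.log n) ≤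
          C * (1 + (Nat.totient n : ℝ) / n * Real.log n) :=
        mul_le_mul_of_nonneg_right (by linarith) (by linarith)
      linarith

end Pool.Agent.Results.MP_70e905_nt.ApproxMultiples
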