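import Pool.Agent.Work.MP_70e905_nt.CL.All
import Pool.Agent.Work.MP_70e905_nt.CL.Colour

set_option autoImplicit false

namespace Pool.Agent.Results.MP_70e905_nt.Colourings

/-- For every colouring of the primes with finitely many colours there are a colour `i` and `L` such
that every interval of integers `[n, n + L]` contains a difference `p - q` of two primes of
colour `i`. -/
theorem result : ∀ k : ℕ, ∀ c : ℕ → Fin k, ∃ i : Fin k, ∃ L : ℕ, ∀ n : ℤ,
    ∃ p q : ℕ, p.Prime ∧ q.Prime ∧ c p = i ∧ c q = i ∧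
      n ≤ (p : ℤ) - (q : ℤ) ∧ (p : ℤ) - (q : ℤ) ≤ n + (L : ℤ) :=
  PoolCL.colour fun N η hN hη => PoolCL.clusterM_all N η hN hη

end Pool.Agent.Results.MP_70e905_nt.Colourings
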