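import Pool.Agent.Work.MP_70e905_nt.Sim.Common
import Pool.Agent.Work.MP_70e905_nt.CL3.All3

set_option autoImplicit false

namespace Pool.Agent.Work.MP_70e905_nt.Retired.CommonMultiples

open Finset Classical PoolQ4

/-- For all `k ≥ 1` and `ε > 0` there is `M₀` such that for ALL `n 1, ..., n k ≥ 1` and all `M ≥ M₀` the
`m ≤ M` for which EVERY `m n i` is a difference of two primes `≤ 3 M n i` carry at least the proportion
`3 / (2 * 4 ^ k + 1) - ε` (`1/3`, `1/11`, `1/43`, ...) of the Hardy-Littlewood singular series of all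
multiples `m g`, `m ≤ M`, of `g = gcd (n 1, ..., n k)`. -/
theorem result (k : ℕ) (hk : 1 ≤ k) (ε : ℝ) (hε : 0 < ε) : ∃ M₀ : ℕ, ∀ n : Fin k → ℕ,
    (∀ i, 1 ≤ n i) → ∀ M : ℕ, M₀ ≤ M →
    (3 / (2 * 4 ^ k + 1) - ε) * ∑ m ∈ Icc 1 M, hl (m * univ.gcd n) ≤
      ∑ m ∈ (Icc 1 M).filter (fun m => ∀ i, ∃ p q : ℕ, p.Prime ∧ q.Prime ∧ p ≤ 3 * M * n i ∧
        p = q + m * n i), hl (m * univ.gcd n) := by
  obtain ⟨M₀, h⟩ := PoolSim.common_multiples
    (fun N hN => ⟨1 / 4 + 1 / 10 ^ 19, by norm_num, PoolCL.clusterP_all N hN⟩) k ε hε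
  refine ⟨M₀, fun n hn M hM => ?_⟩
  have hg : 1 ≤ univ.gcd n := by
    rw [Nat.one_le_iff_ne_zero]
    intro h0
    rw [Finset.gcd_eq_zero_iff] at h0
    have h1 := h0 ⟨0, hk⟩ (mem_univ _)
    have h2 := hn ⟨0, hk⟩
    omega
  have h1 := h n hn (univ.gcd n) hg (fun i => gcd_dvd (mem_univ i)) M hM
  rw [PoolSim.KK_real] at h1
  exact h1

end Pool.Agent.Work.MP_70e905_nt.Retired.CommonMultiples
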