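import Mathlib
import Pool.Agent.Work.MP_70e905_nt.OmegaMain
import Pool.Agent.Work.MP_70e905_nt.PhiSum
import Pool.Agent.Work.Sieve.PairBound

set_option autoImplicit false

namespace Pool.Agent.Results.MP_70e905_nt.LeastPrimeOmega

/-- In every residue class `2a mod 2M` of even numbers there are infinitely many `n` such that in
every representation `n = p - q` as a difference of two primes the prime `q` exceeds
`c log n (log log n)^2 (log log log log n) / (log log log n)^2`. -/
theorem result (M a : ℕ) (hM : 0 < M) :
    ∃ c : ℝ, 0 < c ∧ ∀ N : ℕ, ∃ n : ℕ, N < n ∧ n ≡ 2 * a [MOD 2 * M] ∧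
      ∀ p q : ℕ, p.Prime → q.Prime → p = q + n →
        c * Real.log n * (Real.log (Real.log n)) ^ 2 *
          Real.log (Real.log (Real.log (Real.log n))) / (Real.log (Real.log (Real.log n))) ^ 2
          < (q : ℝ) := by
  refine Pool.Agent.Work.MP_70e905_nt.omega_main 216 36 (by norm_num) (by norm_num) ?_
    Pool.Agent.Work.MP_70e905_nt.sum_inv_totient_le M a hM
  intro s X hs hX
  have h := Pool.Agent.Work.Sieve.pair_bound (a := s) (b := 1) hs one_pos
    (Nat.coprime_one_right s) hX
  rw [Nat.mul_one] at h
  rw [mul_div_assoc]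
  exact h

end Pool.Agent.Results.MP_70e905_nt.LeastPrimeOmega
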