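import Mathlib
import Pool.Agent.Work.MP_70e905_nt.Local

set_option autoImplicit false

namespace Pool.Agent.Results.MP_70e905_nt.SmallSubtrahend

/-- The number of even `n ≤ X` that are differences `p - q` of primes with `q ≤ y` has order of
magnitude `X * min(1, π(y) / log X)`, uniformly for `3 ≤ y ≤ X`; in the lower bound one can even
ask for at least `c π(y) / log X` representations. -/
theorem result : ∃ c C : ℝ, 0 < c ∧ 0 < C ∧ ∀ᶠ X : ℕ in Filter.atTop, ∀ y : ℕ, 3 ≤ y → y ≤ X →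
    c * X * min 1 (Nat.primeCounting y / Real.log X) ≤
      (((Finset.Icc 1 X).filter (fun n : ℕ => Even n ∧
        1 ≤ ((Finset.Icc 1 y).filter (fun q : ℕ => q.Prime ∧ (n + q).Prime)).card ∧
        c * (Nat.primeCounting y / Real.log X) ≤
          ((Finset.Icc 1 y).filter (fun q : ℕ => q.Prime ∧ (n + q).Prime)).card)).card : ℝ) ∧
    (((Finset.Icc 1 X).filter (fun n : ℕ => Even n ∧
        1 ≤ ((Finset.Icc 1 y).filter (fun q : ℕ => q.Prime ∧ (n + q).Prime)).card)).card : ℝ) ≤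
      C * X * min 1 (Nat.primeCounting y / Real.log X) := by
  obtain ⟨c, hc, hlow⟩ := Pool.Agent.Work.MP_70e905_nt.local_lower
  obtain ⟨C, hC, hup⟩ := Pool.Agent.Work.MP_70e905_nt.local_upper
  refine ⟨c, C, hc, hC, ?_⟩
  filter_upwards [hlow, hup] with X h1 h2 y hy3 hyX
  refine ⟨h1 y hy3 hyX, le_trans ?_ (h2 y hyX)⟩
  have h3 : ((Finset.Icc 1 X).filter (fun n : ℕ => Even n ∧
        1 ≤ ((Finset.Icc 1 y).filter (fun q : ℕ => q.Prime ∧ (n + q).Prime)).card)).card ≤
      ((Finset.Icc 1 X).filter (fun n : ℕ =>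
        1 ≤ Pool.Agent.Work.MP_70e905_nt.repAll y n)).card := by
    apply Finset.card_le_card
    intro n hn
    rw [Finset.mem_filter] at hn ⊢
    exact ⟨hn.1, hn.2.2⟩
  exact_mod_cast h3

end Pool.Agent.Results.MP_70e905_nt.SmallSubtrahend
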