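import Mathlib
import Pool.Agent.Work.MP_70e905_nt.ThinC

/-- There is an absolute `c > 0` such that for every `0 < ε ≤ 1` there is a set `Q` of primes with at
most `ε log x` elements up to `x`, for every real `x ≥ 1`, such that for all large `y` and all
`N ≥ y` at least `c ε (log y / log N) N` of the positive even integers `n ≤ N` are of the form
`n = p - q` with `p` prime, `q ∈ Q` and `q ≤ y`. -/
theorem Pool.Agent.Results.MP_70e905_nt.ThinSubtrahends.result :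
    ∃ c : ℝ, 0 < c ∧ ∀ ε : ℝ, 0 < ε → ε ≤ 1 →
      ∃ Q : Set ℕ, (∀ q ∈ Q, q.Prime) ∧
        (∀ x : ℝ, 1 ≤ x → (({q ∈ Q | (q : ℝ) ≤ x}).ncard : ℝ) ≤ ε * Real.log x) ∧
        ∃ y₀ : ℕ, ∀ y N : ℕ, y₀ ≤ y → y ≤ N →
          c * ε * (Real.log y / Real.log N) * N ≤ (({n : ℕ | 1 ≤ n ∧ n ≤ N ∧ Even n ∧
            ∃ p q : ℕ, p.Prime ∧ q ∈ Q ∧ q ≤ y ∧ n + q = p}).ncard : ℝ) :=
  Pool.Agent.Work.MP_70e905_nt.Thin.main
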