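import Pool.Agent.Work.MP_70e905_nt.Alt.Threshold
import Pool.Agent.Work.MP_70e905_nt.CL3.All3

set_option autoImplicit false

namespace Pool.Agent.Results.MP_70e905_nt.Threshold

/-- There are `C` and `δ > 0` such that for every `x ≥ 1` there is a length `B < x` with:

(1) every `n ≤ x` satisfies `n < p - q ≤ n + C (B + 1)` for some primes `x < q < p ≤ C x`;

(2) among any `N` even numbers of `[0, B]` at most `C N ^ (2 - δ)` pairs have a difference that is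
not equal to `p - q` for primes `x < q < p ≤ C x`, and any arithmetic progression of `X` positive
even numbers of `[0, B]` (first term `r`, difference `d`, `r + X d ≤ B`) contains at most
`C X ^ (1 - δ)` numbers that are not. -/
theorem result : ∃ (C : ℕ) (δ : ℝ), 0 < δ ∧ ∀ x : ℕ, 1 ≤ x → ∃ B : ℕ, B < x ∧
    (∀ n : ℕ, n ≤ x → ∃ p q : ℕ, p.Prime ∧ q.Prime ∧ x < q ∧ p ≤ C * x ∧ q + n < p ∧
      p ≤ q + n + C * (B + 1)) ∧
    (∀ S : Finset ℕ, (∀ s ∈ S, Even s ∧ s ≤ B) →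
        (({s : ℕ × ℕ | s.1 ∈ S ∧ s.2 ∈ S ∧ s.1 < s.2 ∧
          ¬ ∃ p q : ℕ, p.Prime ∧ q.Prime ∧ x < q ∧ p ≤ C * x ∧
            p = q + (s.2 - s.1)}.ncard : ℕ) : ℝ) ≤ C * (S.card : ℝ) ^ (2 - δ)) ∧
    (∀ r d X : ℕ, Even r → Even d → 0 < r → 0 < d → r + X * d ≤ B →
        (({j : ℕ | j < X ∧
          ¬ ∃ p q : ℕ, p.Prime ∧ q.Prime ∧ x < q ∧ p ≤ C * x ∧
            p = q + (r + j * d)}.ncard : ℕ) : ℝ) ≤ C * (X : ℝ) ^ (1 - δ)) := by
  obtain ⟨C₀, δ, hδ, H⟩ := PoolAlt.repulsion PoolCL.clusterPlus_three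
  obtain ⟨C, hC⟩ := PoolAlt.threshold_of H
  exact ⟨C, δ, hδ, hC⟩

end Pool.Agent.Results.MP_70e905_nt.Threshold
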