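import Pool.Agent.Work.MP_70e905_nt.CL.All
import Pool.Agent.Work.MP_70e905_nt.CL.UnivR

set_option autoImplicit false

namespace Pool.Agent.Work.MP_70e905_nt.Retired.UniversalTuples

open Finset Classical

/-- For every `r ≥ 1` and `ε > 0` there are `n₀, x₀` such that for all `x ≥ x₀` and every set `H` of at
least `n₀` integers in `[0, x]` which for every prime `p` misses a residue class modulo `p`, at
least the proportion `(1/4)^(r-1) - ε` of the `r`-element subsets `S` of `H` is such that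
`z + h` is prime for all `h ∈ S`, for some `z` in `(x, 2x]`. -/
theorem result (r : ℕ) (hr : 1 ≤ r) (ε : ℝ) (hε : 0 < ε) : ∃ n₀ x₀ : ℕ, ∀ x : ℕ, x₀ ≤ x →
    ∀ H : Finset ℕ, (∀ p : ℕ, p.Prime → ∃ v : ℕ, ∀ h ∈ H, ¬ p ∣ v + h) → (∀ h ∈ H, h ≤ x) →
      n₀ ≤ #H →
      ((1 / 4) ^ (r - 1) - ε) * ((#H).choose r : ℝ) ≤
        (#{S ∈ H.powersetCard r | ∃ z, x < z ∧ z ≤ 2 * x ∧ ∀ h ∈ S, (z + h).Prime} : ℝ) :=
  PoolCL.univ_r (fun N η hN hη => PoolCL.clusterM_all N η hN hη) r hr ε hε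

end Pool.Agent.Work.MP_70e905_nt.Retired.UniversalTuples
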